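import Pool.Agent.Helper23.HDT.Final

/-! Regular `d`-handicap graphs, uniformly in `d`: the asymptotic threshold. -/

namespace Pool.Agent.Results.MP_d9dd8c_co.AsymptoticThreshold

open Finset Classical in
/-- the weight of the vertex `v`: the sum of the labels of its neighbours, where the label of `x`
is `l x + 1 ∈ {1, …, p}` -/
noncomputable def weight {p : ℕ} (G : SimpleGraph (Fin p)) (l : Fin p ≃ Fin p) (v : Fin p) : ℕ :=
  ∑ x ∈ univ.filter (fun x => G.Adj v x), ((l x).val + 1)

open Finset Classical in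
/-- every vertex has exactly `r` neighbours -/
def IsRegularGraph {p : ℕ} (G : SimpleGraph (Fin p)) (r : ℕ) : Prop :=
  ∀ v, (univ.filter (fun x => G.Adj v x)).card = r

/-- the bijection `x ↦ l x + 1` onto `{1, …, p}` is a `d`-handicap labeling: the weights of the
vertices, in the order of their labels, increase by exactly `d` at every step -/
def IsHandicapLabeling {p : ℕ} (G : SimpleGraph (Fin p)) (l : Fin p ≃ Fin p) (d : ℕ) : Prop :=
  ∀ u v, (l v).val = (l u).val + 1 → weight G l v = weight G l u + d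

/-- some `r`-regular graph on `p` vertices has a `d`-handicap labeling -/
def RegularHandicapGraphExists (p r d : ℕ) : Prop :=
  ∃ (G : SimpleGraph (Fin p)) (l : Fin p ≃ Fin p), IsRegularGraph G r ∧ IsHandicapLabeling G l d

/-- An `r`-regular `d`-handicap graph on `p ≥ 1` vertices can only exist if
`d (p - 1) ≤ r (p - 2 - r)`, and this bound is asymptotically sharp for all `r` and `d`
simultaneously: for every `ε > 0` there is `p₀` such that for all `p ≥ p₀` and all `r` and `d ≥ 1` with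
`(1 + ε) d (p - 1) ≤ r (p - 2 - r)` such a graph exists iff the parity conditions hold and
`(d, r) ≠ (1, 2)`. -/
theorem result :
    (∀ p r d : ℕ, 1 ≤ p → 1 ≤ d → RegularHandicapGraphExists p r d →
      (d : ℝ) * ((p : ℝ) - 1) ≤ r * ((p : ℝ) - 2 - r)) ∧
    ∀ ε : ℝ, 0 < ε → ∃ p₀ : ℕ, ∀ p : ℕ, p₀ ≤ p → ∀ r d : ℕ, 1 ≤ d →
      (1 + ε) * d * ((p : ℝ) - 1) ≤ r * ((p : ℝ) - 2 - r) →
      (RegularHandicapGraphExists p r d ↔
        ((Odd p → Even r) ∧ (Even p → Even (r + d)) ∧ (p % 4 = 2 → 4 ∣ r + d) ∧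
          ¬ (d = 1 ∧ r = 2))) := by
  refine ⟨fun p r d hp _ h => ?_, fun ε hε => HDT.mainThm ε hε⟩
  have h1 := HDT.necThm hp h
  have h2 : ((p - 1 : ℕ) : ℝ) = (p : ℝ) - 1 := by
    push_cast [Nat.cast_sub hp]; ring
  have h3 : ((d * (p - 1) + r * (r + 1) : ℕ) : ℝ) ≤ ((r * (p - 1) : ℕ) : ℝ) := by
    exact_mod_cast h1
  push_cast at h3
  rw [h2] at h3
  linarith

end Pool.Agent.Results.MP_d9dd8c_co.AsymptoticThreshold
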