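import Pool.Agent.Helper48.HcMainEven

/-! Complete classification of regular `d`-handicap graphs of every sufficiently large even order. -/

namespace Pool.Agent.Results.MP_d9dd8c_co.EvenOrder

open Finset Classical in
/-- the weight of the vertex `v`: the sum of the labels of its neighbours, where the label of `x`
is `l x + 1 ∈ {1, …, p}` -/
noncomputable def weight {p : ℕ} (G : SimpleGraph (Fin p)) (l : Fin p ≃ Fin p) (v : Fin p) : ℕ :=
  ∑ x ∈ univ.filter (fun x => G.Adj v x), ((l x).val + 1)

open Finset Classical in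
/-- every vertex has exactly `r` neighbours -/
def IsRegularGraph {p : ℕ} (G : SimpleGraph (Fin p)) (r : ℕ) : Prop :=
  ∀ v, (univ.filter (fun x => G.Adj v x)).card = r

/-- the bijection `x ↦ l x + 1` onto `{1, …, p}` is a `d`-handicap labeling: the weights of the
vertices, in the order of their labels, increase by exactly `d` at every step -/
def IsHandicapLabeling {p : ℕ} (G : SimpleGraph (Fin p)) (l : Fin p ≃ Fin p) (d : ℕ) : Prop :=
  ∀ u v, (l v).val = (l u).val + 1 → weight G l v = weight G l u + d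

/-- some `r`-regular graph on `p` vertices has a `d`-handicap labeling -/
def RegularHandicapGraphExists (p r d : ℕ) : Prop :=
  ∃ (G : SimpleGraph (Fin p)) (l : Fin p ≃ Fin p), IsRegularGraph G r ∧ IsHandicapLabeling G l d

/-- For every `d ≥ 1`, every even `p ≥ 1000·5^d` and every `r`: an `r`-regular `d`-handicap graph on
`p` vertices exists iff `d + 2 ≤ r ≤ p - d - 4`, `r ≡ d (mod 2)` and, if `p ≡ 2 (mod 4)`,
`r + d ≡ 0 (mod 4)`. -/
theorem result (d : ℕ) (hd : 1 ≤ d) (p : ℕ) (hp : 1000 * 5 ^ d ≤ p) (hp2 : Even p) (r : ℕ) :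
    RegularHandicapGraphExists p r d ↔
      (d + 2 ≤ r ∧ r + d + 4 ≤ p ∧ Even (r + d) ∧ (p % 4 = 2 → 4 ∣ r + d)) :=
  Pool.Agent.Helper48.even_main d hd p hp hp2 r

end Pool.Agent.Results.MP_d9dd8c_co.EvenOrder
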