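import Pool.Agent.Helper74.Gp.Final

/-! Regular `d`-handicap graphs of odd order: all degrees, all sufficiently large odd orders. -/

namespace Pool.Agent.Results.MP_d9dd8c_co.OddAll

open Finset Classical in
/-- the weight of the vertex `v`: the sum of the labels of its neighbours, where the label of `x`
is `l x + 1 ∈ {1, …, p}` -/
noncomputable def weight {p : ℕ} (G : SimpleGraph (Fin p)) (l : Fin p ≃ Fin p) (v : Fin p) : ℕ :=
  ∑ x ∈ univ.filter (fun x => G.Adj v x), ((l x).val + 1)

open Finset Classical in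
/-- every vertex has exactly `r` neighbours -/
def IsRegularGraph {p : ℕ} (G : SimpleGraph (Fin p)) (r : ℕ) : Prop :=
  ∀ v, (univ.filter (fun x => G.Adj v x)).card = r

/-- the bijection `x ↦ l x + 1` onto `{1, …, p}` is a `d`-handicap labeling: the weights of the
vertices, in the order of their labels, increase by exactly `d` at every step -/
def IsHandicapLabeling {p : ℕ} (G : SimpleGraph (Fin p)) (l : Fin p ≃ Fin p) (d : ℕ) : Prop :=
  ∀ u v, (l v).val = (l u).val + 1 → weight G l v = weight G l u + d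

/-- some `r`-regular graph on `p` vertices has a `d`-handicap labeling -/
def RegularHandicapGraphExists (p r d : ℕ) : Prop :=
  ∃ (G : SimpleGraph (Fin p)) (l : Fin p ≃ Fin p), IsRegularGraph G r ∧ IsHandicapLabeling G l d

/-- For every `d ≥ 1` there is `p₀` such that for all odd `p ≥ p₀` and all `r`, an `r`-regular
`d`-handicap graph on `p` vertices exists if and only if `r` is even, `d + 1 ≤ r ≤ p - d - 3` and
`(d, r) ≠ (1, 2)`. -/
theorem result (d : ℕ) (hd : 1 ≤ d) : ∃ p₀ : ℕ, ∀ p : ℕ, p₀ ≤ p → Odd p → ∀ r : ℕ,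
    (RegularHandicapGraphExists p r d ↔ Even r ∧ d + 1 ≤ r ∧ r + d + 3 ≤ p ∧ ¬ (d = 1 ∧ r = 2)) := by
  obtain ⟨p₀, h⟩ := Pool.Agent.Helper74.Gp.odd_all d hd
  refine ⟨p₀, fun p hp hodd r => ?_⟩
  have h1 : RegularHandicapGraphExists p r d ↔
      (d + 1 ≤ r ∧ r + d + 3 ≤ p ∧ Even r ∧ ¬ (d = 1 ∧ r = 2)) := h p hp hodd r
  rw [h1]
  tauto

end Pool.Agent.Results.MP_d9dd8c_co.OddAll
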