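import Pool.Agent.Helper68.OC.Main

/-! Regular `1`-handicap graphs of odd order: the complete classification, for every odd order. -/

namespace Pool.Agent.Results.MP_d9dd8c_co.UnitOddOrders

open Finset Classical in
/-- the weight of the vertex `v`: the sum of the labels of its neighbours, where the label of `x`
is `l x + 1 ∈ {1, …, p}` -/
noncomputable def weight {p : ℕ} (G : SimpleGraph (Fin p)) (l : Fin p ≃ Fin p) (v : Fin p) : ℕ :=
  ∑ x ∈ univ.filter (fun x => G.Adj v x), ((l x).val + 1)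

open Finset Classical in
/-- every vertex has exactly `r` neighbours -/
def IsRegularGraph {p : ℕ} (G : SimpleGraph (Fin p)) (r : ℕ) : Prop :=
  ∀ v, (univ.filter (fun x => G.Adj v x)).card = r

/-- the bijection `x ↦ l x + 1` onto `{1, …, p}` is a `d`-handicap labeling: the weights of the
vertices, in the order of their labels, increase by exactly `d` at every step -/
def IsHandicapLabeling {p : ℕ} (G : SimpleGraph (Fin p)) (l : Fin p ≃ Fin p) (d : ℕ) : Prop :=
  ∀ u v, (l v).val = (l u).val + 1 → weight G l v = weight G l u + d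

/-- some `r`-regular graph on `p` vertices has a `d`-handicap labeling -/
def RegularHandicapGraphExists (p r d : ℕ) : Prop :=
  ∃ (G : SimpleGraph (Fin p)) (l : Fin p ≃ Fin p), IsRegularGraph G r ∧ IsHandicapLabeling G l d

/-- The complete answer for `d = 1` and odd order: for every odd `p` and every `r ≥ 1`, an `r`-regular
`1`-handicap graph on `p` vertices exists if and only if `r` is even, `4 ≤ r ≤ p - 5` and `(p, r)` is
not one of `(11, 4), (11, 6), (13, 4), (13, 8), (15, 4), (17, 4)`. -/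
theorem result (p r : ℕ) (hp : Odd p) (hr : 1 ≤ r) :
    RegularHandicapGraphExists p r 1 ↔ (Even r ∧ 4 ≤ r ∧ r + 5 ≤ p ∧
      (p, r) ∉ ({(11, 4), (11, 6), (13, 4), (13, 8), (15, 4), (17, 4)} : Finset (ℕ × ℕ))) := by
  have h1 : RegularHandicapGraphExists p r 1 ↔
    (Even r ∧ 4 ≤ r ∧ r + 5 ≤ p ∧ ¬ (p = 11 ∧ r = 4) ∧ ¬ (p = 11 ∧ r = 6) ∧ ¬ (p = 13 ∧ r = 4) ∧
      ¬ (p = 13 ∧ r = 8) ∧ ¬ (p = 15 ∧ r = 4) ∧ ¬ (p = 17 ∧ r = 4)) :=
    Pool.Agent.Helper68.OC.odd_one hp hr
  rw [h1]
  simp only [Finset.mem_insert, Finset.mem_singleton, Prod.mk.injEq, not_or]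

end Pool.Agent.Results.MP_d9dd8c_co.UnitOddOrders
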